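import Mathlib
import Pool.Prelude.Def_F_c31e40fa
import Pool.Agent.Helper134_Sharp.Main

set_option autoImplicit false

namespace Pool.Agent.Results.MP_fcb70f_an.ConnectivityModulusLowerBound

/-- Lower bounds for the modulus of local connectivity of the Multibrot sets at all iterated
logarithmic scales. There is a constant `A` such that, for all `n` and `k` for which the iterated
logarithm `log^[k+1] n` is at least `A` (that is, `exp^[k+1] A ≤ n`), the Multibrot set of degree `n`
contains points `x`, `y` at distance at most `A / (n * log n * ⋯ * log^[k] n)` such that every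
connected subset of it which contains both has diameter at least `log^[k+1] n / (A * n)`. -/
theorem result : ∃ A : ℝ, 0 < A ∧ ∀ n k : ℕ, Real.exp^[k + 1] A ≤ n →
    ∃ x ∈ N62a1eb23.multibrotSet n, ∃ y ∈ N62a1eb23.multibrotSet n,
      n * dist x y * ∏ i ∈ Finset.range k, Real.log^[i + 1] (n : ℝ) ≤ A ∧
      ∀ S ⊆ N62a1eb23.multibrotSet n, IsPreconnected S → x ∈ S → y ∈ S →
        Real.log^[k + 1] (n : ℝ) ≤ A * (n * Metric.diam S) :=
  Pool.Agent.Helper134.Sharp.sharp

end Pool.Agent.Results.MP_fcb70f_an.ConnectivityModulusLowerBound
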